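import Pool.Agent.BEL.StmtsP

/-!
# Row LSM of squad BEL: the heat semigroup is a contraction of `L^1`
-/

namespace Pool.Agent.BEL.H9

open Set Filter Topology MeasureTheory
open scoped InnerProductSpace ENNReal
open Pool.Agent.BE01 Pool.Agent.BEL

noncomputable section

section Gen

variable {H : Type*} [NormedAddCommGroup H] [InnerProductSpace ℝ H]

theorem hasSum_sq (b : HilbertBasis ℕ ℝ H) (x : H) :
    HasSum (fun k => ⟪b k, x⟫_ℝ ^ 2) (‖x‖ ^ 2) := by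
  have h := b.hasSum_inner_mul_inner x x
  rw [real_inner_self_eq_norm_sq] at h
  refine h.congr_fun ?_ |> fun h => h
  intro k
  rw [real_inner_comm x (b k), sq]

theorem eq_of_coef (b : HilbertBasis ℕ ℝ H) {x y : H} (h : ∀ k, ⟪b k, x⟫_ℝ = ⟪b k, y⟫_ℝ) :
    x = y := by
  have h1 := hasSum_sq b (x - y)
  have h2 : (fun k => ⟪b k, x - y⟫_ℝ ^ 2) = fun _ => 0 := by
    funext k
    rw [inner_sub_right, h k, sub_self]
    norm_num
  rw [h2] at h1
  have h3 := h1.unique hasSum_zero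
  have h4 : ‖x - y‖ = 0 := by simpa using h3
  exact sub_eq_zero.1 (norm_eq_zero.1 h4)

/-- A vector with given square summable coefficients. -/
theorem exists_coef [CompleteSpace H] (b : HilbertBasis ℕ ℝ H) (c : ℕ → ℝ)
    (hc : Summable fun k => c k ^ 2) : ∃ x : H, ∀ k, ⟪b k, x⟫_ℝ = c k := by
  have hm : Memℓp c 2 := by
    rw [memℓp_gen_iff (by norm_num)]
    refine hc.congr fun k => ?_
    simp
  refine ⟨b.repr.symm ⟨c, hm⟩, fun k => ?_⟩
  rw [← b.repr_apply_apply, LinearIsometryEquiv.apply_symm_apply]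

/-- Multipliers bounded by `1` which converge pointwise. -/
theorem tendsto_mult (b : HilbertBasis ℕ ℝ H) (f u : H) (v : ℕ → H) (M : ℕ → ℕ → ℝ) (m : ℕ → ℝ)
    (hu : ∀ k, ⟪b k, u⟫_ℝ = m k * ⟪b k, f⟫_ℝ)
    (hv : ∀ n k, ⟪b k, v n⟫_ℝ = M n k * ⟪b k, f⟫_ℝ)
    (hM : ∀ n k, M n k ∈ Icc (0 : ℝ) 1) (hm : ∀ k, m k ∈ Icc (0 : ℝ) 1)
    (hl : ∀ k, Tendsto (fun n => M n k) atTop (𝓝 (m k))) :
    Tendsto (fun n => ‖v n - u‖) atTop (𝓝 0) := by
  have h1 : ∀ n, ‖v n - u‖ ^ 2 = ∑' k, ((M n k - m k) * ⟪b k, f⟫_ℝ) ^ 2 := by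
    intro n
    rw [← (hasSum_sq b (v n - u)).tsum_eq]
    refine tsum_congr fun k => ?_
    rw [inner_sub_right, hu k, hv n k]
    ring
  have h2 : Tendsto (fun n => ∑' k, ((M n k - m k) * ⟪b k, f⟫_ℝ) ^ 2) atTop
      (𝓝 (∑' _ : ℕ, (0 : ℝ))) := by
    refine tendsto_tsum_of_dominated_convergence (bound := fun k => ⟪b k, f⟫_ℝ ^ 2)
      (hasSum_sq b f).summable ?_ ?_
    · intro k
      have h3 : Tendsto (fun n => ((M n k - m k) * ⟪b k, f⟫_ℝ) ^ 2) atTop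
          (𝓝 (((m k - m k) * ⟪b k, f⟫_ℝ) ^ 2)) :=
        (((hl k).sub_const (m k)).mul_const _).pow 2
      simpa using h3
    · refine Eventually.of_forall fun n k => ?_
      have h4 : |M n k - m k| ≤ 1 := by
        rw [abs_le]
        have h5 := hM n k
        have h6 := hm k
        constructor
        · linarith [h5.1, h6.2]
        · linarith [h5.2, h6.1]
      rw [Real.norm_eq_abs, abs_of_nonneg (sq_nonneg _), mul_pow]
      have h7 : (M n k - m k) ^ 2 ≤ 1 := by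
        rw [← sq_abs]
        exact pow_le_one₀ (abs_nonneg _) h4
      exact mul_le_of_le_one_left (sq_nonneg _) h7
  have h3 : Tendsto (fun n => ‖v n - u‖ ^ 2) atTop (𝓝 0) := by
    simp_rw [h1]
    simpa using h2
  have h4 := h3.sqrt
  simpa using h4

end Gen

/-- The `L^1` norm is bounded by the `L^2` norm. -/
theorem int_abs_le {X : Type*} [MeasurableSpace X] (μ : Measure X) [IsFiniteMeasure μ] :
    ∃ C : ℝ, 0 ≤ C ∧ ∀ f : Lp ℝ 2 μ, ∫ x, |f x| ∂μ ≤ C * ‖f‖ := by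
  refine ⟨(μ univ).toReal ^ ((1 : ℝ) / 2), by positivity, fun f => ?_⟩
  have h1 := eLpNorm_le_eLpNorm_mul_rpow_measure_univ (p := 1) (q := 2) (by norm_num)
    (Lp.aestronglyMeasurable f)
  have h2 : ∫ x, |f x| ∂μ = (eLpNorm f 1 μ).toReal := by
    rw [eLpNorm_one_eq_lintegral_enorm, ← integral_norm_eq_lintegral_enorm
      (Lp.aestronglyMeasurable f)]
    rfl
  rw [h2]
  have h3 : eLpNorm f 2 μ * μ univ ^ (1 / (1 : ℝ≥0∞).toReal - 1 / (2 : ℝ≥0∞).toReal) ≠ ⊤ := by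
    refine ENNReal.mul_ne_top (Lp.eLpNorm_ne_top f) ?_
    refine (ENNReal.rpow_lt_top_of_nonneg ?_ (measure_ne_top μ univ)).ne
    norm_num
  have h4 := ENNReal.toReal_mono h3 h1
  rw [ENNReal.toReal_mul] at h4
  refine h4.trans (le_of_eq ?_)
  rw [mul_comm, Lp.norm_def, ← ENNReal.toReal_rpow]
  norm_num

variable {d : ℕ}

/-- One step of the resolvent. -/
theorem step (lon : LonStmt) {Ω : Set (En d)} {ι : VV Ω →L[ℝ] Lp ℝ 2 (mu Ω)}
    {b : HilbertBasis ℕ ℝ (Lp ℝ 2 (mu Ω))} {e : HilbertBasis ℕ ℝ (VV Ω)} {om : ℕ → ℝ}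
    (hd : Dom Ω) (hi : Emb2 Ω ι) (hs : Spec Ω ι b e om) {lam : ℝ} (hl : 0 < lam)
    (g : Lp ℝ 2 (mu Ω)) :
    ∃ w : Lp ℝ 2 (mu Ω), (∀ k, ⟪b k, w⟫_ℝ = (1 + lam * om k ^ 2)⁻¹ * ⟪b k, g⟫_ℝ) ∧
      ∫ x, |w x| ∂(mu Ω) ≤ ∫ x, |g x| ∂(mu Ω) := by
  haveI : CompleteSpace (VV Ω) :=
    (Submodule.isClosed_topologicalClosure _).completeSpace_coe
  have hp : ∀ k, 0 < 1 + lam * om k ^ 2 := fun k => by
    have := hs.pos k
    positivity
  have hsum : Summable fun k => (om k / (1 + lam * om k ^ 2) * ⟪b k, g⟫_ℝ) ^ 2 := by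
    refine Summable.of_nonneg_of_le (fun k => sq_nonneg _) (fun k => ?_)
      (((hasSum_sq b g).summable).mul_left (1 / lam))
    rw [mul_pow]
    refine mul_le_mul_of_nonneg_right ?_ (sq_nonneg _)
    rw [div_pow, div_le_div_iff₀ (by have := hp k; positivity) hl]
    nlinarith [sq_nonneg (lam * om k ^ 2), hp k, mul_pos hl (pow_pos (hs.pos k) 2)]
  obtain ⟨G, hG⟩ := exists_coef e _ hsum
  have hco : ∀ k, ⟪b k, ι G⟫_ℝ = (1 + lam * om k ^ 2)⁻¹ * ⟪b k, g⟫_ℝ := by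
    intro k
    rw [hs.rel k G, hG k]
    have h1 := (hs.pos k).ne'
    have h2 := (hp k).ne'
    field_simp
  refine ⟨ι G, hco, ?_⟩
  refine lon d Ω ι hd hi g G lam hl.le fun G' => ?_
  have h1 := b.hasSum_inner_mul_inner (ι G) (ι G')
  have h2 := (e.hasSum_inner_mul_inner G G').mul_left lam
  have h3 := b.hasSum_inner_mul_inner g (ι G')
  refine (h1.add h2).unique (h3.congr_fun ?_ |> fun h => h)
  intro k
  have e1 : ⟪ι G, b k⟫_ℝ = (1 + lam * om k ^ 2)⁻¹ * ⟪b k, g⟫_ℝ := by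
    rw [real_inner_comm]
    exact hco k
  have e2 : ⟪G, e k⟫_ℝ = om k / (1 + lam * om k ^ 2) * ⟪b k, g⟫_ℝ := by
    rw [real_inner_comm]
    exact hG k
  have e3 : ⟪g, b k⟫_ℝ = ⟪b k, g⟫_ℝ := real_inner_comm _ _
  have e4 : ⟪e k, G'⟫_ℝ = om k * ⟪b k, ι G'⟫_ℝ := by
    rw [hs.rel k G']
    have := (hs.pos k).ne'
    field_simp
  rw [e1, e2, e3, e4]
  have h2 := (hp k).ne'
  field_simp

/-- Iteration. -/
theorem iter (lon : LonStmt) {Ω : Set (En d)} {ι : VV Ω →L[ℝ] Lp ℝ 2 (mu Ω)}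
    {b : HilbertBasis ℕ ℝ (Lp ℝ 2 (mu Ω))} {e : HilbertBasis ℕ ℝ (VV Ω)} {om : ℕ → ℝ}
    (hd : Dom Ω) (hi : Emb2 Ω ι) (hs : Spec Ω ι b e om) {lam : ℝ} (hl : 0 < lam)
    (g : Lp ℝ 2 (mu Ω)) (n : ℕ) :
    ∃ w : Lp ℝ 2 (mu Ω), (∀ k, ⟪b k, w⟫_ℝ = ((1 + lam * om k ^ 2) ^ n)⁻¹ * ⟪b k, g⟫_ℝ) ∧
      ∫ x, |w x| ∂(mu Ω) ≤ ∫ x, |g x| ∂(mu Ω) := by
  induction n with
  | zero => exact ⟨g, fun k => by simp, le_rfl⟩
  | succ n ih =>
    obtain ⟨w, h1, h2⟩ := ih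
    obtain ⟨w', h3, h4⟩ := step lon hd hi hs hl w
    refine ⟨w', fun k => ?_, h4.trans h2⟩
    rw [h3 k, h1 k, pow_succ (1 + lam * om k ^ 2) n, mul_inv]
    ring

theorem lsm (lon : LonStmt) : LsmStmt := by
  intro d Ω ι b e om _ hd hi hs t f u ht hu
  rcases ht.eq_or_lt with rfl | ht
  · have h1 : u = f := eq_of_coef b fun k => by rw [hu k]; simp
    rw [h1]
  haveI : IsFiniteMeasure (mu Ω) := by
    unfold mu
    exact ⟨by rw [Measure.restrict_apply_univ]; exact hd.2.1.measure_lt_top⟩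
  have hpos : ∀ n : ℕ, 0 < t / ((n : ℝ) + 1) := fun n => by positivity
  choose v hv hv1 using fun n : ℕ => iter lon hd hi hs (hpos n) f (n + 1)
  have hlim : Tendsto (fun n => ‖v n - u‖) atTop (𝓝 0) := by
    refine tendsto_mult b f u v (fun n k => ((1 + t / ((n : ℝ) + 1) * om k ^ 2) ^ (n + 1))⁻¹)
      (fun k => Real.exp (-(t * om k ^ 2))) hu hv ?_ ?_ ?_
    · intro n k
      have h1 : 1 ≤ 1 + t / ((n : ℝ) + 1) * om k ^ 2 := by
        have := hpos n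
        have : 0 ≤ t / ((n : ℝ) + 1) * om k ^ 2 := by positivity
        linarith
      have h2 : 1 ≤ (1 + t / ((n : ℝ) + 1) * om k ^ 2) ^ (n + 1) := one_le_pow₀ h1
      exact ⟨by positivity, inv_le_one_of_one_le₀ h2⟩
    · intro k
      refine ⟨(Real.exp_pos _).le, Real.exp_le_one_iff.2 ?_⟩
      have : 0 ≤ t * om k ^ 2 := by positivity
      linarith
    · intro k
      have h1 := (Real.tendsto_one_add_div_pow_exp (t * om k ^ 2)).comp (tendsto_add_atTop_nat 1)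
      have h2 := h1.inv₀ (Real.exp_pos _).ne'
      rw [← Real.exp_neg] at h2
      refine h2.congr fun n => ?_
      simp only [Function.comp_apply, Nat.cast_add, Nat.cast_one]
      congr 3
      ring
  obtain ⟨C, hC, hC1⟩ := int_abs_le (mu Ω)
  have hbd : ∀ n, ∫ x, |u x| ∂(mu Ω) ≤ ∫ x, |f x| ∂(mu Ω) + C * ‖v n - u‖ := by
    intro n
    have i1 : Integrable (fun x => |v n x|) (mu Ω) :=
      ((Lp.memLp (v n)).integrable (by norm_num)).abs
    have i2 : Integrable (fun x => |(v n - u : Lp ℝ 2 (mu Ω)) x|) (mu Ω) :=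
      ((Lp.memLp (v n - u)).integrable (by norm_num)).abs
    have i3 : Integrable (fun x => |u x|) (mu Ω) :=
      ((Lp.memLp u).integrable (by norm_num)).abs
    have h1 : ∫ x, |u x| ∂(mu Ω) ≤ ∫ x, (|v n x| + |(v n - u : Lp ℝ 2 (mu Ω)) x|) ∂(mu Ω) := by
      refine integral_mono_ae i3 (i1.add i2) ?_
      filter_upwards [Lp.coeFn_sub (v n) u] with x hx
      rw [hx]
      simp only [Pi.sub_apply]
      have h2 : u x = v n x - (v n x - u x) := by ring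
      calc |u x| = |v n x - (v n x - u x)| := by rw [← h2]
        _ ≤ |v n x| + |v n x - u x| := abs_sub _ _
    rw [integral_add i1 i2] at h1
    have h3 := hv1 n
    have h4 := hC1 (v n - u)
    linarith
  have h5 : Tendsto (fun n => ∫ x, |f x| ∂(mu Ω) + C * ‖v n - u‖) atTop
      (𝓝 (∫ x, |f x| ∂(mu Ω) + C * 0)) := (hlim.const_mul C).const_add _
  rw [mul_zero, add_zero] at h5
  exact ge_of_tendsto' h5 hbd

end

end Pool.Agent.BEL.H9
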